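import Pool.Agent.W423.NT.Defs

/-!
Project NT (helper423): a nondegenerate tuple has a nondegenerate Cayley configuration (TaskNDC).
-/

set_option autoImplicit false

namespace Pool.Agent.W721.NT

open Pool.Agent.W423.NT
open Pool.Agent.W425.ND (Nondeg onFace)

variable {r N P : ℕ}

lemma cay_cast (g : Fin r → Fin (P+1)) (v : Fin r → Fin N → ℕ) (j : Fin r) (k : Fin (P+1)) :
    cay g v j (Fin.castAdd N k) = if g j = k then 1 else 0 := by
  unfold cay
  rw [Fin.append_left]

lemma cay_nat (g : Fin r → Fin (P+1)) (v : Fin r → Fin N → ℕ) (j : Fin r) (i : Fin N) :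
    cay g v j (Fin.natAdd (P+1) i) = v j i := by
  unfold cay
  rw [Fin.append_right]

lemma sum_cay (g : Fin r → Fin (P+1)) (v : Fin r → Fin N → ℕ) (w' : Fin (P+1+N) → ℝ) (j : Fin r) :
    ∑ i, w' i * (cay g v j i : ℝ) = w' (Fin.castAdd N (g j)) +
      ∑ i, w' (Fin.natAdd (P+1) i) * (v j i : ℝ) := by
  rw [Fin.sum_univ_add]
  congr 1
  · rw [Finset.sum_eq_single (g j)]
    · rw [cay_cast, if_pos rfl]
      simp
    · intro k _ hk
      rw [cay_cast, if_neg (fun h => hk h.symm)]
      simp
    · intro h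
      exact absurd (Finset.mem_univ _) h
  · apply Finset.sum_congr rfl
    intro i _
    rw [cay_nat]

lemma prod_cay (g : Fin r → Fin (P+1)) (v : Fin r → Fin N → ℕ) (z : Fin (P+1+N) → ℂ) (j : Fin r) :
    ∏ i, z i ^ cay g v j i = z (Fin.castAdd N (g j)) *
      ∏ i, z (Fin.natAdd (P+1) i) ^ v j i := by
  rw [Fin.prod_univ_add]
  congr 1
  · rw [Finset.prod_eq_single (g j)]
    · rw [cay_cast, if_pos rfl, pow_one]
    · intro k _ hk
      rw [cay_cast, if_neg (fun h => hk h.symm), pow_zero]
    · intro h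
      exact absurd (Finset.mem_univ _) h
  · apply Finset.prod_congr rfl
    intro i _
    rw [cay_nat]

theorem ndc : TaskNDC := by
  classical
  intro r N P g v a hg hnd w' z hz
  rintro ⟨-, heq⟩
  set w : Fin N → ℝ := fun i => w' (Fin.natAdd (P+1) i) with hw
  set x : Fin N → ℂ := fun i => z (Fin.natAdd (P+1) i) with hx
  set y : Fin (P+1) → ℂ := fun k => z (Fin.castAdd N k) with hy
  set K : Finset (Fin (P+1)) := Finset.univ.filter
    (fun k => ∃ j, g j = k ∧ onFace (cay g v) w' j) with hK
  have hface : ∀ j, onFace (cay g v) w' j ↔ ∀ j', w' (Fin.castAdd N (g j)) +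
      ∑ i, w i * (v j i : ℝ) ≤ w' (Fin.castAdd N (g j')) + ∑ i, w i * (v j' i : ℝ) := by
    intro j
    unfold onFace
    apply forall_congr'
    intro j'
    rw [sum_cay, sum_cay]
  have hiff : ∀ j, (g j ∈ K ∧ onFaceG g v w j) ↔ onFace (cay g v) w' j := by
    intro j
    constructor
    · rintro ⟨h1, h2⟩
      rw [hK, Finset.mem_filter] at h1
      obtain ⟨-, j0, h3, h4⟩ := h1
      rw [hface] at h4 ⊢
      intro j'
      have h5 := h2 j0 h3
      have h6 := h4 j'
      rw [h3] at h6
      linarith
    · intro h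
      refine ⟨?_, ?_⟩
      · rw [hK, Finset.mem_filter]
        exact ⟨Finset.mem_univ _, j, rfl, h⟩
      · rw [hface] at h
        intro j' hj'
        have := h j'
        rw [hj'] at this
        linarith
  have hKne : K.Nonempty := by
    obtain ⟨j1, -⟩ := hg 0
    have : Nonempty (Fin r) := ⟨j1⟩
    obtain ⟨j0, hj0⟩ := Finite.exists_min (fun j => w' (Fin.castAdd N (g j)) +
      ∑ i, w i * (v j i : ℝ))
    refine ⟨g j0, ?_⟩
    rw [hK, Finset.mem_filter]
    exact ⟨Finset.mem_univ _, j0, rfl, (hface j0).2 hj0⟩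
  apply hnd w K x y hKne (fun i => hz _) (fun k _ => hz _)
  · intro k hk
    have h1 := heq (Fin.castAdd N k)
    have h2 : (∑ j, if onFace (cay g v) w' j then a j * ((cay g v j (Fin.castAdd N k) : ℕ) : ℂ) *
        ∏ i, z i ^ cay g v j i else 0) =
        y k * ∑ j, (if g j = k ∧ onFaceG g v w j then a j * ∏ i, x i ^ v j i else 0) := by
      rw [Finset.mul_sum]
      apply Finset.sum_congr rfl
      intro j _
      rw [cay_cast, prod_cay]
      by_cases hj : g j = k
      · have h3 : onFace (cay g v) w' j ↔ onFaceG g v w j := by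
          rw [← hiff j, hj]
          exact ⟨fun h => h.2, fun h => ⟨hk, h⟩⟩
        by_cases hf : onFaceG g v w j
        · rw [if_pos (h3.2 hf), if_pos (show g j = k ∧ onFaceG g v w j from ⟨hj, hf⟩),
            if_pos hj, hj, hy]
          push_cast
          ring
        · rw [if_neg (fun h => hf (h3.1 h)), if_neg (fun h => hf h.2), mul_zero]
      · rw [if_neg (fun h : g j = k ∧ onFaceG g v w j => hj h.1), if_neg hj]
        simp
    rw [h2] at h1
    rcases mul_eq_zero.1 h1 with h3 | h3
    · exact absurd h3 (hz _)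
    · exact h3
  · intro i
    have h1 := heq (Fin.natAdd (P+1) i)
    refine Eq.trans ?_ h1
    simp only [Finset.mul_sum]
    rw [Finset.sum_comm]
    apply Finset.sum_congr rfl
    intro j _
    rw [cay_nat, prod_cay]
    by_cases hf : onFace (cay g v) w' j
    · obtain ⟨h3, h4⟩ := (hiff j).2 hf
      rw [if_pos hf, Finset.sum_eq_single (g j)]
      · rw [if_pos ⟨rfl, h4⟩, hy]
        simp only
        ring
      · intro k _ hk
        rw [if_neg (fun h => hk h.1.symm), mul_zero]
      · intro h
        exact absurd h3 h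
    · rw [if_neg hf]
      apply Finset.sum_eq_zero
      intro k hk
      rw [if_neg, mul_zero]
      rintro ⟨h3, h4⟩
      apply hf
      rw [← hiff j, h3]
      exact ⟨hk, h4⟩

end Pool.Agent.W721.NT
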